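import Mathlib
import Pool.Agent.TH115.QC.Upper
import Pool.Agent.TH115.QC.Tree

set_option autoImplicit false

namespace Pool.Agent.Results.MP_799357_lc.AndQuantumGap

open Finset Pool.Agent.TH115.QC

/-- The set of the leading ones of `z`. -/
def leadSet {n : ℕ} (z : Fin n → Bool) : Finset (Fin n) := univ.filter fun i => ∀ j ≤ i, z j = true

/-- The number of leading ones of `z`. -/
def lead {n : ℕ} (z : Fin n → Bool) : ℕ := (leadSet z).card

theorem mem_leadSet {n : ℕ} {z : Fin n → Bool} {i : Fin n} :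
    i ∈ leadSet z ↔ ∀ j ≤ i, z j = true := by simp [leadSet]

theorem leadSet_and {n : ℕ} (x y : Fin n → Bool) :
    leadSet (fun i => x i && y i) = leadSet x ∩ leadSet y := by
  ext i
  simp only [mem_leadSet, Finset.mem_inter, Bool.and_eq_true]
  exact ⟨fun h => ⟨fun j hj => (h j hj).1, fun j hj => (h j hj).2⟩,
    fun h j hj => ⟨h.1 j hj, h.2 j hj⟩⟩

theorem lead_and {n : ℕ} (x y : Fin n → Bool) :
    lead (fun i => x i && y i) = min (lead x) (lead y) := by
  unfold lead
  rw [leadSet_and]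
  by_cases h : leadSet x ⊆ leadSet y
  · rw [Finset.inter_eq_left.2 h, min_eq_left (Finset.card_le_card h)]
  · rw [Finset.not_subset] at h
    obtain ⟨i, hi, hi'⟩ := h
    have h2 : leadSet y ⊆ leadSet x := by
      intro j hj
      rw [mem_leadSet] at hi hi' hj ⊢
      rcases le_total i j with h3 | h3
      · exact absurd (fun k hk => hj k (hk.trans h3)) hi'
      · exact fun k hk => hi k (hk.trans h3)
    rw [Finset.inter_eq_right.2 h2, min_eq_right (Finset.card_le_card h2)]

theorem lead_lt {n : ℕ} (z : Fin n → Bool) : lead z < n + 1 := by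
  have := Finset.card_le_univ (leadSet z)
  rw [Fintype.card_fin] at this
  exact Nat.lt_succ_of_le this

/-- The parity of the number of leading ones. -/
def parLead (n : ℕ) : (Fin n → Bool) → Bool := fun z => decide (lead z % 2 = 1)

theorem andComp_parLead (n : ℕ) :
    andComp (parLead n) = fun x y => decide (min (lead x) (lead y) % 2 = 1) := by
  funext x y
  show decide (lead (fun i => x i && y i) % 2 = 1) = _
  rw [lead_and]

/-- The string that begins with `i + 1` ones. -/
def ones {n : ℕ} (i : Fin n) : Fin n → Bool := fun j => decide (j ≤ i)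

theorem lead_ones {n : ℕ} (i : Fin n) : lead (ones i) = i + 1 := by
  have : leadSet (ones i) = Finset.Iic i := by
    ext j
    rw [mem_leadSet, Finset.mem_Iic]
    constructor
    · intro h
      have := h j le_rfl
      simpa [ones] using this
    · intro h k hk
      simp [ones, hk.trans h]
  unfold lead
  rw [this, Fin.card_Iic]

theorem commMat_parLead (n : ℕ) : commMat (andComp (parLead n)) ones ones = parMat n := by
  ext i j
  unfold commMat parMat
  rw [andComp_parLead]
  simp only [lead_ones]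
  have : min ((i : ℕ) + 1) ((j : ℕ) + 1) = min (i : ℕ) (j : ℕ) + 1 := by omega
  rw [this]
  by_cases h : (min (i : ℕ) (j : ℕ) + 1) % 2 = 1 <;> simp [h]

theorem le_detCC (n : ℕ) : n ≤ 2 ^ detCC (andComp (parLead n)) := by
  have h := rank_le_two_pow_detCC (andComp (parLead n)) ones ones
  rw [commMat_parLead, rank_parMat] at h
  exact h

theorem randCC_parLead (s n : ℕ) (hn : n < 2 ^ 2 ^ s) :
    randCC (andComp (parLead n)) ≤ s ^ 2 + 3 * s + 3 := by
  refine randCC_le (minProt (n + 1) s lead lead) _ (minProt_depth _ _ _ _) _ fun x y => ?_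
  rw [andComp_parLead]
  exact minProt_success (n + 1) s lead lead hn lead_lt lead_lt x y

theorem quantCC_parLead (s n : ℕ) (hn : n < 2 ^ 2 ^ s) :
    quantCC (andComp (parLead n)) ≤ 2 * (s ^ 2 + 3 * s + 3) := by
  refine quantCC_le (minProt (n + 1) s lead lead) _ (minProt_depth _ _ _ _) _ fun x y => ?_
  rw [andComp_parLead]
  exact minProt_success (n + 1) s lead lead hn lead_lt lead_lt x y

theorem eval_le (P : Polynomial ℝ) (v B : ℝ) (hv : 0 ≤ v) (hB : v ≤ B) (hB1 : 1 ≤ B) :
    P.eval v ≤ (∑ i ∈ Finset.range (P.natDegree + 1), |P.coeff i|) * B ^ P.natDegree := by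
  rw [Polynomial.eval_eq_sum_range, Finset.sum_mul]
  refine Finset.sum_le_sum fun i hi => ?_
  have hi' : i ≤ P.natDegree := Nat.lt_succ_iff.1 (Finset.mem_range.1 hi)
  calc P.coeff i * v ^ i ≤ |P.coeff i| * v ^ i :=
        mul_le_mul_of_nonneg_right (le_abs_self _) (pow_nonneg hv _)
    _ ≤ |P.coeff i| * B ^ P.natDegree := by
        refine mul_le_mul_of_nonneg_left ?_ (abs_nonneg _)
        exact (pow_le_pow_left₀ hv hB i).trans (pow_le_pow_right₀ hB1 hi')

/-- The quantitative form: for `n < 2 ^ 2 ^ s` the function `f` = parity of the number of leading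
ones has `D(F) ≥ log₂ n`, `R_{1/3}(F) ≤ s² + 3 s + 3` and `Q*_{1/3}(F) ≤ 2 (s² + 3 s + 3)`. -/
theorem gap (s n : ℕ) (hn : n < 2 ^ 2 ^ s) : ∃ f : (Fin n → Bool) → Bool,
    n ≤ 2 ^ detCC (andComp f) ∧
    randCC (andComp f) ≤ s ^ 2 + 3 * s + 3 ∧
    quantCC (andComp f) ≤ 2 * (s ^ 2 + 3 * s + 3) :=
  ⟨parLead n, le_detCC n, randCC_parLead s n hn, quantCC_parLead s n hn⟩

/-- **Result.** The answer to Q1 is negative: for every polynomial `P` there are `n` and a Boolean
function `f` of `n` bits such that, for `F(x, y) = f(x ∧ y)`, the deterministic communication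
complexity `D(F)` is larger than `P(Q*_{1/3}(F))`, where `Q*_{1/3}` is the bounded-error quantum
communication complexity with prior entanglement. It is also larger than `P(R_{1/3}(F))` for the
public-coin randomized communication complexity `R_{1/3}`. -/
theorem result (P : Polynomial ℝ) : ∃ (n : ℕ) (f : (Fin n → Bool) → Bool),
    P.eval (quantCC (andComp f) : ℝ) < detCC (andComp f) ∧
    P.eval (randCC (andComp f) : ℝ) < detCC (andComp f) := by
  set C : ℝ := ∑ i ∈ Finset.range (P.natDegree + 1), |P.coeff i| with hC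
  have hC0 : 0 ≤ C := Finset.sum_nonneg fun i _ => abs_nonneg _
  have hlim := tendsto_pow_const_div_const_pow_of_one_lt (2 * P.natDegree) (r := (2 : ℝ))
    (by norm_num)
  have hD : 0 < 1 / (C * 14 ^ P.natDegree + 1) := by positivity
  have hev := hlim.eventually (gt_mem_nhds hD)
  obtain ⟨s0, hs0⟩ := Filter.eventually_atTop.1 hev
  have hs := hs0 (max s0 1) (le_max_left _ _)
  have hs1 : 1 ≤ max s0 1 := le_max_right _ _
  set s := max s0 1
  rw [div_lt_div_iff₀ (by positivity) (by positivity)] at hs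
  have h9 : C * (14 * (s : ℝ) ^ 2) ^ P.natDegree =
      (C * 14 ^ P.natDegree) * (s : ℝ) ^ (2 * P.natDegree) := by
    rw [mul_pow, pow_mul]
    ring
  have h10 : 0 ≤ (s : ℝ) ^ (2 * P.natDegree) := by positivity
  have h11 : C * (14 * (s : ℝ) ^ 2) ^ P.natDegree < 2 ^ s := by
    rw [h9]
    nlinarith
  set n : ℕ := 2 ^ 2 ^ s - 1 with hn
  have hpos : 1 ≤ 2 ^ 2 ^ s := Nat.one_le_two_pow
  have hn' : n < 2 ^ 2 ^ s := by omega
  have h2 := quantCC_parLead s n hn'
  have h2' := randCC_parLead s n hn'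
  have h3 := le_detCC n
  have h4 : 2 ^ s ≤ detCC (andComp (parLead n)) := by
    by_contra hlt
    rw [not_le] at hlt
    have h5 : 2 ^ detCC (andComp (parLead n)) ≤ 2 ^ (2 ^ s - 1) :=
      Nat.pow_le_pow_right (by norm_num) (by omega)
    have h6 : 2 ≤ 2 ^ s := by
      calc 2 = 2 ^ 1 := by norm_num
        _ ≤ 2 ^ s := Nat.pow_le_pow_right (by norm_num) hs1
    have h7 : 2 ^ 2 ^ s = 2 * 2 ^ (2 ^ s - 1) := by
      rw [← pow_succ']
      congr 1
      omega
    have h8 : 2 ≤ 2 ^ (2 ^ s - 1) := by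
      calc 2 = 2 ^ 1 := by norm_num
        _ ≤ 2 ^ (2 ^ s - 1) := Nat.pow_le_pow_right (by norm_num) (by omega)
    omega
  have h4' : (2 : ℝ) ^ s ≤ (detCC (andComp (parLead n)) : ℝ) := by exact_mod_cast h4
  have hsR : (1 : ℝ) ≤ s := by exact_mod_cast hs1
  have h6 : (1 : ℝ) ≤ 14 * (s : ℝ) ^ 2 := by nlinarith
  have h5 : (quantCC (andComp (parLead n)) : ℝ) ≤ 14 * (s : ℝ) ^ 2 := by
    have : (quantCC (andComp (parLead n)) : ℝ) ≤ 2 * ((s : ℝ) ^ 2 + 3 * s + 3) := by
      exact_mod_cast h2
    nlinarith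
  have h5' : (randCC (andComp (parLead n)) : ℝ) ≤ 14 * (s : ℝ) ^ 2 := by
    have : (randCC (andComp (parLead n)) : ℝ) ≤ (s : ℝ) ^ 2 + 3 * s + 3 := by
      exact_mod_cast h2'
    nlinarith
  refine ⟨n, parLead n, ?_, ?_⟩
  · exact ((eval_le P _ _ (Nat.cast_nonneg _) h5 h6).trans_lt h11).trans_le h4'
  · exact ((eval_le P _ _ (Nat.cast_nonneg _) h5' h6).trans_lt h11).trans_le h4'

end Pool.Agent.Results.MP_799357_lc.AndQuantumGap
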